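import Pool.Agent.H94.LP1.H18.FatDefs

namespace Pool.Agent.H18.Fat

open MvPolynomial Finset

/-- The exponent vectors of degree `d` in `n` variables. -/
noncomputable def mons (n d : ℕ) : Finset (Fin n →₀ ℕ) := finsuppAntidiag univ d

theorem mem_mons {n d : ℕ} {α : Fin n →₀ ℕ} : α ∈ mons n d ↔ α.degree = d := by
  unfold mons
  rw [mem_finsuppAntidiag, Finsupp.degree_eq_sum]
  simp

theorem card_mons (n d : ℕ) : (mons (n + 1) d).card = (d + n).choose n := by
  unfold mons
  rw [card_finsuppAntidiag_nat_eq_choose]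
  simp only [card_univ, Fintype.card_fin]
  have h : n + 1 + d - 1 = d + n := by omega
  rw [h]
  exact Nat.choose_symm_add

/-- Taylor coefficients of monomials. -/
noncomputable def tc {n : ℕ} (q : Fin n → ℂ) (α β : Fin n →₀ ℕ) : ℂ :=
  ∏ j, (((α j).choose (β j) : ℂ) * q j ^ (α j - β j))

theorem coeff_shift_monomial {n : ℕ} (q : Fin n → ℂ) (α β : Fin n →₀ ℕ) (c : ℂ) :
    coeff β (shift q (monomial α c)) = c * tc q α β := by
  classical
  unfold shift
  rw [aeval_monomial, algebraMap_eq, coeff_C_mul, Finsupp.prod_fintype _ _ (by intro i; simp)]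
  congr 1
  have h1 : ∀ j : Fin n, (X j + C (q j) : MvPolynomial (Fin n) ℂ) ^ (α j) =
      ∑ b ∈ range (α j + 1), monomial (Finsupp.single j b)
        (((α j).choose b : ℂ) * q j ^ (α j - b)) := by
    intro j
    rw [add_pow]
    refine sum_congr rfl fun b _ => ?_
    rw [X_pow_eq_monomial, ← C_pow, mul_assoc, mul_comm (C (q j ^ (α j - b)))]
    rw [← C_eq_coe_nat, ← C_mul, mul_comm, C_mul_monomial, mul_one]
  simp_rw [h1]
  rw [prod_univ_sum, coeff_sum]
  have h2 : ∀ x ∈ Fintype.piFinset fun j => range (α j + 1),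
      coeff β (∏ j, monomial (Finsupp.single j (x j))
        (((α j).choose (x j) : ℂ) * q j ^ (α j - x j)) : MvPolynomial (Fin n) ℂ) =
      if x = ⇑β then tc q α β else 0 := by
    intro x _
    rw [← monomial_sum_prod, coeff_monomial]
    have h4 : (∑ j, Finsupp.single j (x j)) = Finsupp.equivFunOnFinite.symm x := by
      rw [Finsupp.equivFunOnFinite_symm_eq_sum]
    rw [h4]
    by_cases hx : x = ⇑β
    · subst hx
      simp [tc]
    · rw [if_neg, if_neg hx]
      intro h5
      apply hx
      rw [← h5]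
      simp
  rw [sum_congr rfl h2, sum_ite_eq']
  split_ifs with h
  · rfl
  · rw [Fintype.mem_piFinset] at h
    push Not at h
    obtain ⟨j, hj⟩ := h
    rw [mem_range] at hj
    symm
    unfold tc
    apply prod_eq_zero (mem_univ j)
    rw [Nat.choose_eq_zero_of_lt (by omega)]
    simp

theorem coeff_shift {n : ℕ} (q : Fin n → ℂ) (β : Fin n →₀ ℕ) (F : MvPolynomial (Fin n) ℂ) :
    coeff β (shift q F) = ∑ α ∈ F.support, coeff α F * tc q α β := by
  classical
  conv_lhs => rw [F.as_sum]
  unfold shift
  rw [map_sum, coeff_sum]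
  exact sum_congr rfl fun α _ => coeff_shift_monomial q α β _

/-- Coefficient vectors to homogeneous polynomials. -/
noncomputable def toPoly (n d : ℕ) : (mons n d → ℂ) →ₗ[ℂ] MvPolynomial (Fin n) ℂ where
  toFun f := ∑ α : mons n d, monomial α.1 (f α)
  map_add' f g := by
    rw [← sum_add_distrib]
    exact sum_congr rfl fun α _ => by simp
  map_smul' c f := by
    rw [RingHom.id_apply, smul_sum]
    exact sum_congr rfl fun α _ => by simp [smul_monomial]

theorem toPoly_apply {n d : ℕ} (f : mons n d → ℂ) :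
    toPoly n d f = ∑ α : mons n d, monomial α.1 (f α) := rfl

theorem coeff_toPoly {n d : ℕ} (f : mons n d → ℂ) (α : mons n d) :
    coeff α.1 (toPoly n d f) = f α := by
  classical
  rw [toPoly_apply, coeff_sum]
  simp only [coeff_monomial, Subtype.coe_inj]
  simp

theorem toPoly_injective (n d : ℕ) : Function.Injective (toPoly n d) := by
  intro f g h
  funext α
  rw [← coeff_toPoly f α, ← coeff_toPoly g α, h]

theorem toPoly_isHomogeneous {n d : ℕ} (f : mons n d → ℂ) : (toPoly n d f).IsHomogeneous d := by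
  rw [toPoly_apply]
  apply IsHomogeneous.sum
  intro α _
  exact isHomogeneous_monomial _ (mem_mons.1 α.2)

theorem exists_toPoly {n d : ℕ} {F : MvPolynomial (Fin n) ℂ} (hF : F.IsHomogeneous d) :
    toPoly n d (fun α => coeff α.1 F) = F := by
  classical
  ext β
  by_cases hβ : β ∈ mons n d
  · exact coeff_toPoly (fun α => coeff α.1 F) ⟨β, hβ⟩
  · rw [mem_mons] at hβ
    rw [hF.coeff_eq_zero hβ, (toPoly_isHomogeneous _).coeff_eq_zero hβ]

theorem coeff_shift_toPoly {n d : ℕ} (q : Fin n → ℂ) (β : Fin n →₀ ℕ) (f : mons n d → ℂ) :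
    coeff β (shift q (toPoly n d f)) = ∑ α : mons n d, f α * tc q α.1 β := by
  rw [toPoly_apply]
  unfold shift
  rw [map_sum, coeff_sum]
  exact sum_congr rfl fun α _ => coeff_shift_monomial q α.1 β _

/-- Termwise Euler relation. -/
theorem tc_euler {n : ℕ} (q : Fin n → ℂ) (α β : Fin n →₀ ℕ) :
    ∑ j, q j * ((β j : ℂ) + 1) * tc q α (β + Finsupp.single j 1) =
      ((α.degree : ℂ) - (β.degree : ℂ)) * tc q α β := by
  classical
  have h1 : ∀ j, q j * ((β j : ℂ) + 1) * tc q α (β + Finsupp.single j 1) =
      ((α j : ℂ) - (β j : ℂ)) * tc q α β := by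
    intro j
    unfold tc
    rw [← mul_prod_erase univ _ (mem_univ j), ← mul_prod_erase univ
      (fun i => (((α i).choose (β i) : ℂ) * q i ^ (α i - β i))) (mem_univ j)]
    have h2 : ∏ x ∈ univ.erase j, (((α x).choose ((β + Finsupp.single j 1 : Fin n →₀ ℕ) x) : ℂ) *
        q x ^ (α x - (β + Finsupp.single j 1 : Fin n →₀ ℕ) x)) =
        ∏ x ∈ univ.erase j, (((α x).choose (β x) : ℂ) * q x ^ (α x - β x)) := by
      refine prod_congr rfl fun x hx => ?_
      have hx' : j ≠ x := fun h => (ne_of_mem_erase hx) h.symm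
      simp [Finsupp.single_eq_of_ne hx'.symm]
    rw [h2]
    simp only [Finsupp.add_apply, Finsupp.single_eq_same]
    have h3 : ((α j).choose (β j + 1) : ℂ) * ((β j : ℂ) + 1) =
        ((α j).choose (β j) : ℂ) * ((α j : ℂ) - (β j : ℂ)) := by
      rcases le_or_gt (β j) (α j) with h | h
      · have := Nat.choose_succ_right_eq (α j) (β j)
        have h4 : (((α j).choose (β j + 1) * (β j + 1) : ℕ) : ℂ) =
          (((α j).choose (β j) * (α j - β j) : ℕ) : ℂ) := by rw [this]
        push_cast [Nat.cast_sub h] at h4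
        exact h4
      · rw [Nat.choose_eq_zero_of_lt h, Nat.choose_eq_zero_of_lt (by omega)]
        simp
    have h4 : q j * ((β j : ℂ) + 1) *
        (((α j).choose (β j + 1) : ℂ) * q j ^ (α j - (β j + 1))) =
        ((α j : ℂ) - (β j : ℂ)) * (((α j).choose (β j) : ℂ) * q j ^ (α j - β j)) := by
      rcases lt_or_ge (β j) (α j) with h | h
      · have h5 : α j - β j = (α j - (β j + 1)) + 1 := by omega
        rw [h5, pow_succ]
        linear_combination (q j * q j ^ (α j - (β j + 1))) * h3
      · have h6 : (α j).choose (β j + 1) = 0 := Nat.choose_eq_zero_of_lt (by omega)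
        rw [h6] at h3 ⊢
        simp only [Nat.cast_zero, zero_mul, mul_zero] at h3 ⊢
        linear_combination (q j ^ (α j - β j)) * h3
    linear_combination
      (∏ x ∈ univ.erase j, (((α x).choose (β x) : ℂ) * q x ^ (α x - β x))) * h4
  rw [sum_congr rfl fun j _ => h1 j, ← sum_mul, sum_sub_distrib, Finsupp.degree_eq_sum,
    Finsupp.degree_eq_sum]
  push_cast
  rfl

theorem coeff_shift_euler {n d : ℕ} (q : Fin n → ℂ) (β : Fin n →₀ ℕ) (f : mons n d → ℂ) :
    ∑ j, q j * ((β j : ℂ) + 1) * coeff (β + Finsupp.single j 1) (shift q (toPoly n d f)) =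
      ((d : ℂ) - (β.degree : ℂ)) * coeff β (shift q (toPoly n d f)) := by
  simp_rw [coeff_shift_toPoly, mul_sum]
  rw [sum_comm]
  refine sum_congr rfl fun α _ => ?_
  have h := tc_euler q α.1 β
  rw [mem_mons.1 α.2] at h
  have h2 : ∀ j, q j * ((β j : ℂ) + 1) * (f α * tc q α.1 (β + Finsupp.single j 1)) =
      f α * (q j * ((β j : ℂ) + 1) * tc q α.1 (β + Finsupp.single j 1)) := by
    intro j; ring
  rw [sum_congr rfl fun j _ => h2 j, ← mul_sum, h]
  ring

/-- For a point with nonzero first coordinate only the derivatives in the other directions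
matter. -/
theorem vanishes_of_affine {n d : ℕ} {q : Fin (n + 1) → ℂ} (hq : q 0 ≠ 0)
    (f : mons (n + 1) d → ℂ) {m : ℕ}
    (h : ∀ β : Fin (n + 1) →₀ ℕ, β 0 = 0 → β.degree < m →
      coeff β (shift q (toPoly (n + 1) d f)) = 0) :
    VanishesToOrder (toPoly (n + 1) d f) q m := by
  have key : ∀ t : ℕ, ∀ β : Fin (n + 1) →₀ ℕ, β 0 = t → β.degree < m →
      coeff β (shift q (toPoly (n + 1) d f)) = 0 := by
    intro t
    induction t with
    | zero => exact h
    | succ t ih =>
      intro β hβ hdeg
      -- `β = β' + e_0`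
      obtain ⟨β', hβ'⟩ : ∃ β' : Fin (n + 1) →₀ ℕ, β = β' + Finsupp.single 0 1 := by
        refine ⟨β - Finsupp.single 0 1, ?_⟩
        ext j
        simp only [Finsupp.add_apply, Finsupp.tsub_apply]
        by_cases hj : j = 0
        · subst hj
          simp
          omega
        · simp [Finsupp.single_eq_of_ne hj]
      have h0 : β' 0 = t := by
        have := congrArg (fun b => b 0) hβ'
        simp at this
        omega
      have hd : β.degree = β'.degree + 1 := by
        rw [hβ']
        simp
      have he := coeff_shift_euler q β' f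
      have hz : coeff β' (shift q (toPoly (n + 1) d f)) = 0 := ih β' h0 (by omega)
      rw [hz, mul_zero, Fin.sum_univ_succ] at he
      have hz2 : ∀ j : Fin n, coeff (β' + Finsupp.single j.succ 1)
          (shift q (toPoly (n + 1) d f)) = 0 := by
        intro j
        apply ih
        · simp [h0]
        · simp only [map_add, Finsupp.degree_single]
          omega
      simp only [hz2, mul_zero, sum_const_zero, add_zero] at he
      rw [← hβ'] at he
      rcases mul_eq_zero.1 he with h1 | h1
      · exfalso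
        rcases mul_eq_zero.1 h1 with h2 | h2
        · exact hq h2
        · have : ((β' 0 : ℂ) + 1) ≠ 0 := Nat.cast_add_one_ne_zero (β' 0)
          exact this h2
      · exact h1
  intro β hβ
  exact key _ β rfl hβ

end Pool.Agent.H18.Fat
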